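import Pool.Agent.Helper42.PQ.Spec
import Pool.Agent.Helper42.PQ.Base

set_option autoImplicit false

/-!
# CLO: closedness of the class of configurations grouped along a closed family of groupings
-/

namespace Pool.Agent.Helper70.PQ.CLO

open Pool.Agent.Helper42.PQ Finset

theorem main (hGRP : S_GRP) : S_CLO := by
  classical
  intro ι _ _ d r q k w Q hr hd hq hsum hcard hcl A u v u' v' huv hW hex
  obtain ⟨ρ, hQ, T, hT, hS⟩ := hex
  -- locate u
  have hu : u ∈ ∑ j, T j := by rw [← hS]; simp
  obtain ⟨a, -, hua⟩ := Multiset.mem_sum.1 hu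
  obtain ⟨Ta, hTa⟩ := Multiset.exists_cons_of_mem hua
  have hsum1 : ∑ j, T j = u ::ₘ (Ta + ∑ j ∈ Finset.univ.erase a, T j) := by
    rw [← Finset.add_sum_erase Finset.univ T (Finset.mem_univ a), hTa, Multiset.cons_add]
  have hA : v ::ₘ A = Ta + ∑ j ∈ Finset.univ.erase a, T j := by
    have := hS.trans hsum1
    exact (Multiset.cons_inj_right u).1 this
  have hv : v ∈ Ta + ∑ j ∈ Finset.univ.erase a, T j := by rw [← hA]; simp
  rw [Multiset.mem_add] at hv
  by_cases hva : v ∈ Ta
  · -- both in the same class
    obtain ⟨B, hB⟩ := Multiset.exists_cons_of_mem hva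
    refine ⟨ρ, hQ, Function.update T a (u' ::ₘ v' ::ₘ B), ?_, ?_⟩
    · intro j
      by_cases hj : j = a
      · subst hj
        rw [Function.update_self]
        have h1 := hT j
        rw [hTa, hB] at h1
        have h2 : Wt (u' ::ₘ v' ::ₘ B) = Wt (u ::ₘ v ::ₘ B) := by
          rw [Wt_cons, Wt_cons, Wt_cons, Wt_cons, ← add_assoc, ← add_assoc, huv]
        refine ⟨by rw [h2]; exact h1.1, ?_⟩
        rw [h2, h1.2]
        simp
      · rw [Function.update_of_ne hj]
        exact hT j
    · rw [← Finset.add_sum_erase Finset.univ _ (Finset.mem_univ a), Function.update_self]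
      have h3 : ∑ j ∈ Finset.univ.erase a, Function.update T a (u' ::ₘ v' ::ₘ B) j =
          ∑ j ∈ Finset.univ.erase a, T j := Finset.sum_congr rfl fun j hj => by
        rw [Function.update_of_ne (Finset.ne_of_mem_erase hj)]
      rw [h3, Multiset.cons_add, Multiset.cons_add]
      rw [hB, Multiset.cons_add] at hA
      rw [(Multiset.cons_inj_right v).1 hA]
  · -- different classes
    have hv' : v ∈ ∑ j ∈ Finset.univ.erase a, T j := hv.resolve_left hva
    obtain ⟨b, hb, hvb⟩ := Multiset.mem_sum.1 hv'
    have hba : b ≠ a := Finset.ne_of_mem_erase hb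
    obtain ⟨Tb, hTb⟩ := Multiset.exists_cons_of_mem hvb
    have hA2 : A = Ta + Tb + ∑ j ∈ (Finset.univ.erase a).erase b, T j := by
      rw [← Finset.add_sum_erase _ T hb, hTb] at hA
      rw [Multiset.cons_add, Multiset.add_cons] at hA
      rw [(Multiset.cons_inj_right v).1 hA, add_assoc]
    set wab : ι → ℕ := fun i => if ρ i = a ∨ ρ i = b then w i else 0 with hwab
    have hWU : Wt (u' ::ₘ v' ::ₘ (Ta + Tb)) = wab := by
      have h1 : Wt (u' ::ₘ v' ::ₘ (Ta + Tb)) = Wt (T a) + Wt (T b) := by
        rw [hTa, hTb, Wt_cons, Wt_cons, Wt_cons, Wt_cons, Wt_add, ← add_assoc, ← huv]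
        abel
      rw [h1, (hT a).1, (hT b).1]
      funext i
      simp only [Pi.add_apply, hwab]
      by_cases h2 : ρ i = a
      · have h3 : ρ i ≠ b := fun h => hba (h.symm.trans h2)
        simp [h2, hba.symm]
      · by_cases h3 : ρ i = b
        · simp [h3, hba]
        · simp [h2, h3]
    have hspU : (sp wab).card = (u' ::ₘ v' ::ₘ (Ta + Tb)).card * r + 2 := by
      have h1 : sp wab = cls w ρ a ∪ cls w ρ b := by
        ext i
        rw [mem_sp, Finset.mem_union, mem_cls, mem_cls]
        simp only [hwab]
        by_cases h2 : ρ i = a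
        · simp only [h2, true_or, if_true]
          tauto
        · by_cases h3 : ρ i = b
          · simp only [h3, or_true, if_true]
            tauto
          · simp [h2, h3]
      have h2 : Disjoint (cls w ρ a) (cls w ρ b) := by
        rw [Finset.disjoint_left]
        intro i hi hi'
        rw [mem_cls] at hi hi'
        exact hba (hi'.2.symm.trans hi.2)
      rw [h1, Finset.card_union_of_disjoint h2]
      have h3 := (hT a).2
      have h4 := (hT b).2
      rw [(hT a).1, sp_class] at h3
      rw [(hT b).1, sp_class] at h4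
      rw [h3, h4, hTa, hTb]
      simp only [Multiset.card_cons, Multiset.card_add]
      ring
    obtain ⟨ρ₂, T₂, hT₂, hU⟩ := hGRP ι d r 2 wab (u' ::ₘ v' ::ₘ (Ta + Tb)) hr (by omega) hWU hspU
    rw [Fin.sum_univ_two] at hU
    set ρ' : ι → Fin q := fun i => if ρ i = a ∨ ρ i = b then (if ρ₂ i = 0 then a else b) else ρ i
      with hρ'
    set T' : Fin q → Multiset (G ι d (r + 1)) := fun j => if j = a then T₂ 0 else
      if j = b then T₂ 1 else T j with hT'
    have h10 : (1 : Fin 2) ≠ 0 := by decide
    have hG' : Grp w ρ' T' := by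
      intro j
      by_cases hja : j = a
      · have e1 : T' j = T₂ 0 := by simp [hT', hja]
        rw [e1]
        refine ⟨?_, (hT₂ 0).2⟩
        rw [(hT₂ 0).1]
        funext i
        simp only [hρ', hwab]
        by_cases h1 : ρ i = a ∨ ρ i = b
        · by_cases h2 : ρ₂ i = 0
          · simp [h1, h2, hja]
          · simp [h1, h2, hja, hba]
        · have h3 : ρ i ≠ j := fun h => h1 (Or.inl (h.trans hja))
          simp [h1, h3]
      · by_cases hjb : j = b
        · have e1 : T' j = T₂ 1 := by simp [hT', hjb, hba]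
          rw [e1]
          refine ⟨?_, (hT₂ 1).2⟩
          rw [(hT₂ 1).1]
          funext i
          simp only [hρ', hwab]
          by_cases h1 : ρ i = a ∨ ρ i = b
          · by_cases h2 : ρ₂ i = 0
            · simp [h1, h2, hjb, hba.symm]
            · have h4 : ρ₂ i = 1 := by
                have := (ρ₂ i).2
                apply Fin.ext
                have h5 : (ρ₂ i).val ≠ 0 := fun h => h2 (Fin.ext h)
                show (ρ₂ i).val = 1
                omega
              simp [h1, h4, hjb]
          · have h3 : ρ i ≠ j := fun h => h1 (Or.inr (h.trans hjb))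
            simp [h1, h3]
        · have e1 : T' j = T j := by simp [hT', hja, hjb]
          rw [e1]
          refine ⟨?_, (hT j).2⟩
          rw [(hT j).1]
          funext i
          simp only [hρ']
          by_cases h1 : ρ i = a ∨ ρ i = b
          · have h2 : ρ i ≠ j := by
              rintro rfl
              rcases h1 with h | h
              · exact hja h
              · exact hjb h
            by_cases h3 : ρ₂ i = 0
            · simp [h1, h2, h3, Ne.symm hja]
            · simp [h1, h2, h3, Ne.symm hjb]
          · simp [h1]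
    have hCf' : Cf w ρ' (u' ::ₘ v' ::ₘ A) := by
      refine ⟨T', hG', ?_⟩
      rw [← Finset.add_sum_erase Finset.univ T' (Finset.mem_univ a),
        ← Finset.add_sum_erase _ T' hb]
      have e1 : T' a = T₂ 0 := by simp [hT']
      have e2 : T' b = T₂ 1 := by simp [hT', hba]
      have e3 : ∑ j ∈ (Finset.univ.erase a).erase b, T' j =
          ∑ j ∈ (Finset.univ.erase a).erase b, T j := Finset.sum_congr rfl fun j hj => by
        have h1 := Finset.ne_of_mem_erase hj
        have h2 := Finset.ne_of_mem_erase (Finset.mem_of_mem_erase hj)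
        simp [hT', h1, h2]
      rw [e1, e2, e3, ← add_assoc, ← hU, hA2, Multiset.cons_add, Multiset.cons_add]
    refine ⟨ρ', ?_, hCf'⟩
    refine hcl ρ ρ' a b hQ (Cf.NG ⟨T, hT, rfl⟩) (Cf.NG hCf') ?_
    intro i _
    refine ⟨fun h1 h2 => by simp [hρ', h1, h2], fun h1 => ?_⟩
    simp only [hρ', h1, if_true]
    by_cases h2 : ρ₂ i = 0
    · left; simp [h2]
    · right; simp [h2]

end Pool.Agent.Helper70.PQ.CLO
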