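import Pool.Agent.Helper42.PQ.Spec
import Pool.Agent.Helper42.PQ.Base

set_option autoImplicit false

/-!
# FD: the fibre is nonempty
-/

namespace Pool.Agent.Helper70.PQ.FD

open Pool.Agent.Helper42.PQ Finset

theorem main (hNE : S_NE) : S_FD := by
  intro ι _ _ d r k D w hr hk
  induction k, hk using Nat.le_induction generalizing D w with
  | base =>
    intro hD hw hs
    obtain ⟨g, hg⟩ := mkG (d := d) (s := r + 1) w (by rw [hs]; ring) D (by rw [hD]; omega) hw
    exact ⟨{g}, by simp, by rw [Wt_singleton, hg]⟩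
  | succ k hk ih =>
    intro hD hw hs
    have hsD : Pool.Agent.Helper46.PV.sg w D = (k + 1) * d := by
      rw [← hs]
      exact Finset.sum_subset (Finset.subset_univ _) (fun i _ hi => hw i hi)
    obtain ⟨p, hp⟩ := hNE ι w r d (k + 1) D hr (by omega) hD hsD
    obtain ⟨g, hg⟩ := bvec_gen hp.2.2
    obtain ⟨S, hS, hSw⟩ := ih (D \ p.1) (w - bvec w d p) (card_sdiff_node hp hD)
      (sub_bvec_off hw) (sum_sub_bvec hp.2.2 hs)
    refine ⟨g ::ₘ S, by rw [Multiset.card_cons, hS], ?_⟩
    rw [Wt_cons, hSw, hg]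
    funext i
    have := bvec_le hp.2.2 i
    show bvec w d p i + (w i - bvec w d p i) = w i
    omega

end Pool.Agent.Helper70.PQ.FD
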