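import Pool.Agent.Helper42.PQ.Spec
import Pool.Agent.Helper42.PQ.Base

set_option autoImplicit false

/-!
# NE: existence of a basic node
-/

namespace Pool.Agent.Helper70.PQ.NE

open Pool.Agent.Helper42.PQ Pool.Agent.Helper46.PV Finset

theorem light {ι : Type} [DecidableEq ι] (u : ι → ℕ) (r d c : ℕ) : ∀ (k : ℕ) (E : Finset ι),
    E.card = k * r → (∀ R ⊆ E, R.card = r → sg u R + c + 1 ≤ d) →
    sg u E + k * (c + 1) ≤ k * d := by
  intro k
  induction k with
  | zero =>
    intro E hE _
    rw [Nat.zero_mul, Finset.card_eq_zero] at hE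
    simp [hE, Pool.Agent.Helper46.PV.sg]
  | succ k ih =>
    intro E hE h
    have hle : r ≤ E.card := by
      rw [hE, Nat.succ_mul]
      exact Nat.le_add_left _ _
    obtain ⟨R, hR, hRc⟩ := Finset.exists_subset_card_eq hle
    have h1 := h R hR hRc
    have h2 := ih (E \ R) (by
      rw [Finset.card_sdiff_of_subset hR, hE, hRc, Nat.succ_mul]
      omega) (fun R' hR' hc' => h R' (hR'.trans Finset.sdiff_subset) hc')
    have h3 := sg_sdiff u hR
    have h4 : (k + 1) * (c + 1) = k * (c + 1) + (c + 1) := by ring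
    have h5 : (k + 1) * d = k * d + d := by ring
    rw [h4, h5]
    omega

theorem heavy {ι : Type} [DecidableEq ι] (u : ι → ℕ) (r d : ℕ) : ∀ (k : ℕ) (E : Finset ι),
    E.card = k * r → (∀ R ⊆ E, R.card = r → d + 1 ≤ sg u R) →
    k * (d + 1) ≤ sg u E := by
  intro k
  induction k with
  | zero => intro E _ _; simp
  | succ k ih =>
    intro E hE h
    have hle : r ≤ E.card := by
      rw [hE, Nat.succ_mul]
      exact Nat.le_add_left _ _
    obtain ⟨R, hR, hRc⟩ := Finset.exists_subset_card_eq hle
    have h1 := h R hR hRc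
    have h2 := ih (E \ R) (by
      rw [Finset.card_sdiff_of_subset hR, hE, hRc, Nat.succ_mul]
      omega) (fun R' hR' hc' => h R' (hR'.trans Finset.sdiff_subset) hc')
    have h3 := sg_sdiff u hR
    have h4 : (k + 1) * (d + 1) = k * (d + 1) + (d + 1) := by ring
    rw [h4]
    omega

theorem main : S_NE := by
  intro ι _ _ u r d k D hr hk hD hs
  have hne : D.Nonempty := Finset.card_pos.mp (by rw [hD]; omega)
  obtain ⟨x0, hx0⟩ := hne
  have hE : (D.erase x0).card = k * r := by
    rw [Finset.card_erase_of_mem hx0, hD]; omega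
  have hsE := sg_erase u hx0
  have hs' : Pool.Agent.Helper46.PV.sg u D = k * d := hs
  have hS : ∃ S ⊆ D, S.card = r + 1 ∧ d ≤ Pool.Agent.Helper46.PV.sg u S := by
    by_contra hcon
    push Not at hcon
    have h1 := light u r d (u x0) k (D.erase x0) hE (by
      intro R hR hRc
      have hx : x0 ∉ R := fun h => Finset.notMem_erase x0 D (hR h)
      have h2 := hcon (insert x0 R) (by
        intro z hz
        rw [Finset.mem_insert] at hz
        rcases hz with rfl | hz
        · exact hx0
        · exact Finset.mem_of_mem_erase (hR hz)) (by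
        rw [Finset.card_insert_of_notMem hx, hRc])
      rw [sg_insert u hx] at h2
      omega)
    have h2 : 1 * (u x0 + 1) ≤ k * (u x0 + 1) := Nat.mul_le_mul_right _ hk
    rw [one_mul] at h2
    omega
  have hR : ∃ R ⊆ D, R.card = r ∧ Pool.Agent.Helper46.PV.sg u R ≤ d := by
    by_contra hcon
    push Not at hcon
    have h1 := heavy u r d k (D.erase x0) hE (by
      intro R hR hRc
      exact hcon R (hR.trans (Finset.erase_subset _ _)) hRc)
    have h2 : k * (d + 1) = k * d + k := by ring
    omega
  obtain ⟨R, hRD, y, hy, hyR, hRc, h1, h2⟩ := slide u D r d hS hR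
  exact ⟨(R, y), hRD, hy, hRc, hyR, h1, h2⟩

end Pool.Agent.Helper70.PQ.NE
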